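import Pool.Agent.H80.EN.RAT

/-!
# Corners with almost all directions lit are bright
-/

namespace Pool.Agent.H80.EN

open MeasureTheory Set Metric Filter Topology Pool.Agent.H93.EN
open Pool.Agent.H93.BL hiding T_B1 T_B2 T_B3 T_SB T_SC

variable {ι : Type}

lemma exp_eq_uv (P : Polygon ι) (j : ι) (θ : ℝ) :
    Complex.exp ((θ : ℂ) * Complex.I) = uv P j (θ - Complex.arg (P.u j)) := by
  have huj : ‖P.u j‖ = 1 := by
    have h := u_mul_conj' P j
    rw [Complex.mul_conj, Complex.normSq_eq_norm_sq] at h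
    have h1 : ‖P.u j‖ ^ 2 = 1 := by exact_mod_cast h
    nlinarith [norm_nonneg (P.u j)]
  unfold uv
  have h1 : P.u j = Complex.exp ((Complex.arg (P.u j) : ℂ) * Complex.I) := by
    have := Complex.norm_mul_exp_arg_mul_I (P.u j)
    rw [huj] at this
    push_cast at this
    rw [one_mul] at this
    exact this.symm
  have h2 : Complex.exp (((θ - Complex.arg (P.u j) : ℝ) : ℂ) * Complex.I) * P.u j =
      Complex.exp (((θ - Complex.arg (P.u j) : ℝ) : ℂ) * Complex.I) *
        Complex.exp ((Complex.arg (P.u j) : ℂ) * Complex.I) := by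
    rw [← h1]
  rw [h2, ← Complex.exp_add]
  congr 1; push_cast; ring

theorem ful : T_FUL := by
  intro ι P E U i j α hC hlit
  have hu : -P.u i = uv P j α := hC.2.2.2.1
  have hα : 0 < α := hC.2.1
  have hG := alpha_mem P i j α hu
  have hm : ∀ (t : ℝ) (m : ℤ), Rel P i j t (t + m * (2 * α)) := by
    intro t m
    have := (zsmul_mem hG m).1 t
    rwa [zsmul_eq_mul] at this
  unfold BrightU
  set a : ℝ := Complex.arg (P.u j) with ha
  have h1 : ∀ n : ℤ, ∀ᵐ θ : ℝ, θ + (n * (2 * α) - a) ∈ Ioo 0 α →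
      RU P E U (P.p j) (uv P j (θ + (n * (2 * α) - a))) := fun n =>
    (measurePreserving_add_right volume ((n : ℝ) * (2 * α) - a)).quasiMeasurePreserving.ae hlit
  have h2 : ∀ n : ℤ, ∀ᵐ θ : ℝ, (n * (2 * α) + a) - θ ∈ Ioo 0 α →
      RU P E U (P.p j) (uv P j ((n * (2 * α) + a) - θ)) := fun n =>
    (Measure.measurePreserving_sub_left volume
      ((n : ℝ) * (2 * α) + a)).quasiMeasurePreserving.ae hlit
  have hc1 : (Set.range fun m : ℤ => a + m * α).Countable := Set.countable_range _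
  filter_upwards [ae_all_iff.2 h1, ae_all_iff.2 h2, hc1.ae_notMem volume] with θ g1 g2 g3
  have hne : ∀ m : ℤ, θ - a ≠ -α + m * (2 * α) := by
    intro m hm'
    apply g3
    refine ⟨2 * m - 1, ?_⟩
    simp only
    push_cast
    linarith
  obtain ⟨m, h3, h4⟩ := shift (-α) (2 * α) (θ - a) (by linarith) hne
  rw [exp_eq_uv P j θ]
  rcases lt_trichotomy (θ - a + m * (2 * α)) 0 with h | h | h
  · obtain ⟨l, hl, hr⟩ := rel_trans (hm (θ - a) m) (rel_j P i j _)
    have e : -(θ - a + m * (2 * α)) = (((-m : ℤ) : ℝ) * (2 * α) + a) - θ := by push_cast; ring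
    rw [e] at hr
    have hI : (((-m : ℤ) : ℝ) * (2 * α) + a) - θ ∈ Ioo 0 α := by
      rw [← e]; constructor <;> linarith
    exact ⟨l, hl, _, hI, hr, g2 (-m) hI⟩
  · exfalso
    apply g3
    refine ⟨-2 * m, ?_⟩
    simp only
    push_cast
    linarith
  · obtain ⟨l, hl, hr⟩ := hm (θ - a) m
    have e : θ - a + m * (2 * α) = θ + (m * (2 * α) - a) := by ring
    rw [e] at hr
    have hI : θ + (m * (2 * α) - a) ∈ Ioo 0 α := by
      rw [← e]; constructor <;> linarith
    exact ⟨l, hl, _, hI, hr, g1 m hI⟩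

end Pool.Agent.H80.EN
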