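import Pool.Agent.H93.EN.Targets4

/-!
# The indicator function of the trapped states is measurable
-/

namespace Pool.Agent.H80.EN

open MeasureTheory Set Metric Filter Topology Pool.Agent.H93.EN
open Pool.Agent.H93.BL hiding T_B1 T_B2 T_B3 T_SB T_SC

theorem inm (h1 : T_RO) : T_INM := by
  intro ι _ P E U hU hUΩ
  set O : Set (ℂ × ℂ) := {z | ∃ (y w : ℂ) (ε : ℝ), (∀ y' w', dist y' y < ε → ‖w'‖ = 1 →
    dist w' w < ε → RU P E U y' w') ∧ dist z.1 y < ε ∧ dist z.2 w < ε} with hO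
  have hOo : IsOpen O := by
    rw [isOpen_iff_mem_nhds]
    rintro z ⟨y, w, ε, h, hz1, hz2⟩
    have o1 : IsOpen {z : ℂ × ℂ | dist z.1 y < ε} :=
      isOpen_lt (continuous_fst.dist continuous_const) continuous_const
    have o2 : IsOpen {z : ℂ × ℂ | dist z.2 w < ε} :=
      isOpen_lt (continuous_snd.dist continuous_const) continuous_const
    filter_upwards [o1.mem_nhds hz1, o2.mem_nhds hz2] with z' g1 g2
    exact ⟨y, w, ε, h, g1, g2⟩
  have hiff : ∀ y w : ℂ, y ∈ P.Ω → ‖w‖ = 1 → (RU P E U y w ↔ (y, w) ∈ O) := by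
    intro y w hy hw
    constructor
    · intro h
      obtain ⟨ε, hε, h2⟩ := h1 ι P E U hU hUΩ y hy w hw h
      exact ⟨y, w, ε, h2, by simpa using hε, by simpa using hε⟩
    · rintro ⟨y₀, w₀, ε, h, h2, h3⟩
      exact h y w h2 hw h3
  set T : Set (ℂ × ℂ) := {z | z.1 ∈ P.Ω ∧ ‖z.2‖ = 1 ∧ z ∉ O ∧ (z.1, -z.2) ∉ O} with hT
  have hTm : MeasurableSet T := by
    have m1 : MeasurableSet {z : ℂ × ℂ | z.1 ∈ P.Ω} := measurable_fst P.isOpen.measurableSet
    have m2 : MeasurableSet {z : ℂ × ℂ | ‖z.2‖ = 1} :=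
      (isClosed_eq (continuous_norm.comp continuous_snd) continuous_const).measurableSet
    have m3 : MeasurableSet {z : ℂ × ℂ | z ∉ O} := hOo.measurableSet.compl
    have m4 : MeasurableSet {z : ℂ × ℂ | (z.1, -z.2) ∉ O} := by
      have hc : Continuous fun z : ℂ × ℂ => (z.1, -z.2) := by fun_prop
      exact (hOo.preimage hc).measurableSet.compl
    exact m1.inter (m2.inter (m3.inter m4))
  have hF : Function.uncurry (FE P E U) = T.indicator 1 := by
    funext z
    obtain ⟨y, w⟩ := z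
    rw [Function.uncurry_apply_pair]
    unfold FE
    by_cases hz : (y, w) ∈ T
    · rw [Set.indicator_of_mem hz, if_pos]
      · rfl
      · obtain ⟨g1, g2, g3, g4⟩ := hz
        refine ⟨g1, g2, ?_, ?_⟩
        · rw [hiff y w g1 g2]; exact g3
        · rw [hiff y (-w) g1 (by rw [norm_neg]; exact g2)]; exact g4
    · rw [Set.indicator_of_notMem hz, if_neg]
      rintro ⟨g1, g2, g3, g4⟩
      apply hz
      refine ⟨g1, g2, ?_, ?_⟩
      · rw [hiff y w g1 g2] at g3; exact g3
      · rw [hiff y (-w) g1 (by rw [norm_neg]; exact g2)] at g4; exact g4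
  rw [hF]
  exact measurable_one.indicator hTm

end Pool.Agent.H80.EN
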