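import Pool.Agent.H93.EN.Targets4

/-!
# Rational corners with a long interval of lit directions are bright
-/

namespace Pool.Agent.H80.EN

open MeasureTheory Set Metric Filter Topology Pool.Agent.H93.EN
open Pool.Agent.H93.BL hiding T_B1 T_B2 T_B3 T_SB T_SC

variable {ι : Type}

lemma u_mul_conj' (P : Polygon ι) (j : ι) : P.u j * (starRingEnd ℂ) (P.u j) = 1 := by
  have hq : P.q j - P.p j ≠ 0 := by
    rw [sub_ne_zero]; exact (P.ne j).symm
  have hl : P.len j ≠ 0 := by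
    unfold Polygon.len; rwa [norm_ne_zero_iff]
  have hn : ‖P.u j‖ = 1 := by
    unfold Polygon.u
    rw [norm_div, Complex.norm_real, Real.norm_of_nonneg (by unfold Polygon.len; positivity)]
    exact div_self hl
  rw [Complex.mul_conj, Complex.normSq_eq_norm_sq, hn]; norm_num

lemma refl_uv_j (P : Polygon ι) (j : ι) (t : ℝ) : P.refl j (uv P j t) = uv P j (-t) := by
  unfold Polygon.refl uv
  have h := u_mul_conj' P j
  rw [map_mul, ← Complex.exp_conj, map_mul, Complex.conj_ofReal, Complex.conj_I]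
  have h2 : (((-t : ℝ) : ℂ) * Complex.I) = (t : ℂ) * -Complex.I := by push_cast; ring
  rw [h2]
  calc P.u j ^ 2 * (Complex.exp ((t : ℂ) * -Complex.I) * (starRingEnd ℂ) (P.u j))
      = Complex.exp ((t : ℂ) * -Complex.I) * P.u j * (P.u j * (starRingEnd ℂ) (P.u j)) := by ring
    _ = _ := by rw [h, mul_one]

lemma refl_uv_i (P : Polygon ι) (i j : ι) (α : ℝ) (hα : -P.u i = uv P j α) (t : ℝ) :
    P.refl i (uv P j t) = uv P j (2 * α - t) := by
  have hj := refl_uv_j P j t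
  unfold Polygon.refl at hj ⊢
  have hi : P.u i ^ 2 = Complex.exp ((2 * α : ℝ) * Complex.I) * P.u j ^ 2 := by
    have : P.u i = -uv P j α := by rw [← hα, neg_neg]
    rw [this]
    unfold uv
    have he : Complex.exp ((2 * α : ℝ) * Complex.I) =
        Complex.exp ((α : ℂ) * Complex.I) * Complex.exp ((α : ℂ) * Complex.I) := by
      rw [← Complex.exp_add]; congr 1; push_cast; ring
    rw [he]; ring
  rw [hi, mul_assoc, hj]
  unfold uv
  rw [← mul_assoc, ← Complex.exp_add]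
  congr 2
  push_cast; ring

/-- the directions which are related by words in two reflections and the sign -/
def Rel (P : Polygon ι) (i j : ι) (s t : ℝ) : Prop :=
  ∃ l : List ι, (∀ k ∈ l, k = i ∨ k = j) ∧
    (reflW P l (uv P j s) = uv P j t ∨ reflW P l (uv P j s) = -uv P j t)

lemma reflW_append (P : Polygon ι) (l m : List ι) (v : ℂ) :
    reflW P (l ++ m) v = reflW P l (reflW P m v) := by
  unfold reflW
  rw [List.foldr_append]

lemma reflW_neg (P : Polygon ι) (l : List ι) (v : ℂ) :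
    reflW P l (-v) = -reflW P l v := by
  unfold reflW
  induction l with
  | nil => rfl
  | cons a l ih =>
    rw [List.foldr_cons, List.foldr_cons, ih]
    unfold Polygon.refl
    rw [map_neg]; ring

lemma rel_trans {P : Polygon ι} {i j : ι} {r s t : ℝ} (h1 : Rel P i j r s)
    (h2 : Rel P i j s t) : Rel P i j r t := by
  obtain ⟨l, hl, h1⟩ := h1
  obtain ⟨m, hm, h2⟩ := h2
  refine ⟨m ++ l, ?_, ?_⟩
  · intro k hk
    rcases List.mem_append.1 hk with h | h
    · exact hm k h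
    · exact hl k h
  · rw [reflW_append]
    rcases h1 with h1 | h1 <;> rcases h2 with h2 | h2 <;> rw [h1]
    · exact Or.inl h2
    · exact Or.inr h2
    · rw [reflW_neg, h2]; exact Or.inr rfl
    · rw [reflW_neg, h2, neg_neg]; exact Or.inl rfl

lemma rel_refl (P : Polygon ι) (i j : ι) (t : ℝ) : Rel P i j t t :=
  ⟨[], by simp, Or.inl rfl⟩

lemma rel_j (P : Polygon ι) (i j : ι) (t : ℝ) : Rel P i j t (-t) :=
  ⟨[j], by simp, Or.inl (refl_uv_j P j t)⟩

lemma rel_i (P : Polygon ι) (i j : ι) (α : ℝ) (hα : -P.u i = uv P j α) (t : ℝ) :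
    Rel P i j t (2 * α - t) :=
  ⟨[i], by simp, Or.inl (refl_uv_i P i j α hα t)⟩

lemma uv_pi (P : Polygon ι) (j : ι) (t : ℝ) : uv P j (t + Real.pi) = -uv P j t := by
  unfold uv
  have h : (((t + Real.pi : ℝ) : ℂ) * Complex.I) = (t : ℂ) * Complex.I + Real.pi * Complex.I := by
    push_cast; ring
  rw [h, Complex.exp_add, Complex.exp_pi_mul_I]; ring

lemma rel_pi (P : Polygon ι) (i j : ι) (t : ℝ) : Rel P i j t (t + Real.pi) := by
  refine ⟨[], by simp, Or.inr ?_⟩
  rw [uv_pi, neg_neg]; rfl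

lemma rel_pi' (P : Polygon ι) (i j : ι) (t : ℝ) : Rel P i j t (t - Real.pi) := by
  refine ⟨[], by simp, Or.inr ?_⟩
  have h := uv_pi P j (t - Real.pi)
  rw [sub_add_cancel] at h
  rw [← h]; rfl

/-- the group of translations -/
def grp (P : Polygon ι) (i j : ι) (α : ℝ) (_ : -P.u i = uv P j α) : AddSubgroup ℝ where
  carrier := {x | (∀ t, Rel P i j t (t + x)) ∧ ∀ t, Rel P i j t (t - x)}
  zero_mem' := ⟨fun t => by rw [add_zero]; exact rel_refl P i j t,
    fun t => by rw [sub_zero]; exact rel_refl P i j t⟩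
  add_mem' := by
    rintro x y ⟨hx, hx'⟩ ⟨hy, hy'⟩
    refine ⟨fun t => ?_, fun t => ?_⟩
    · rw [← add_assoc]; exact rel_trans (hx t) (hy _)
    · rw [← sub_sub]; exact rel_trans (hx' t) (hy' _)
  neg_mem' := by
    rintro x ⟨hx, hx'⟩
    refine ⟨fun t => ?_, fun t => ?_⟩
    · rw [← sub_eq_add_neg]; exact hx' t
    · rw [sub_neg_eq_add]; exact hx t

lemma pi_mem (P : Polygon ι) (i j : ι) (α : ℝ) (hα : -P.u i = uv P j α) :
    Real.pi ∈ grp P i j α hα := ⟨rel_pi P i j, rel_pi' P i j⟩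

lemma alpha_mem (P : Polygon ι) (i j : ι) (α : ℝ) (hα : -P.u i = uv P j α) :
    2 * α ∈ grp P i j α hα := by
  refine ⟨fun t => ?_, fun t => ?_⟩
  · have h := rel_trans (rel_j P i j t) (rel_i P i j α hα (-t))
    have e : 2 * α - -t = t + 2 * α := by ring
    rwa [e] at h
  · have h := rel_trans (rel_i P i j α hα t) (rel_j P i j _)
    have e : -(2 * α - t) = t - 2 * α := by ring
    rwa [e] at h

lemma step_mem (P : Polygon ι) (i j : ι) (α : ℝ) (hα : -P.u i = uv P j α) (p q : ℕ)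
    (hq : 0 < q) (hpq : Nat.Coprime p q) (h : α = p * Real.pi / q) :
    2 * Real.pi / (Nat.lcm 2 q : ℕ) ∈ grp P i j α hα := by
  have hg : Nat.gcd q (2 * p) = Nat.gcd q 2 := by
    rw [mul_comm]
    exact Nat.Coprime.gcd_mul_left_cancel_right 2 hpq
  have hb := Nat.gcd_eq_gcd_ab q (2 * p)
  rw [hg] at hb
  have hl : Nat.gcd 2 q * Nat.lcm 2 q = 2 * q := Nat.gcd_mul_lcm 2 q
  rw [Nat.gcd_comm] at hl
  have hlR : ((Nat.gcd q 2 : ℕ) : ℝ) * ((Nat.lcm 2 q : ℕ) : ℝ) = 2 * q := by exact_mod_cast hl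
  have hqR : (0 : ℝ) < q := by exact_mod_cast hq
  have hL : (0 : ℝ) < ((Nat.lcm 2 q : ℕ) : ℝ) := by
    exact_mod_cast Nat.lcm_pos (by norm_num) hq
  have hbR : ((Nat.gcd q 2 : ℕ) : ℝ) = q * (Nat.gcdA q (2 * p) : ℝ) +
      (2 * p) * (Nat.gcdB q (2 * p) : ℝ) := by
    have := congrArg (fun z : ℤ => (z : ℝ)) hb
    push_cast at this
    exact_mod_cast this
  have e : 2 * Real.pi / (Nat.lcm 2 q : ℕ) =
      (Nat.gcdA q (2 * p)) • Real.pi + (Nat.gcdB q (2 * p)) • (2 * α) := by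
    rw [zsmul_eq_mul, zsmul_eq_mul, h, div_eq_iff hL.ne']
    have h1 : ((Nat.gcdA q (2 * p) : ℝ) * Real.pi + (Nat.gcdB q (2 * p) : ℝ) *
        (2 * (p * Real.pi / q))) = ((Nat.gcd q 2 : ℕ) : ℝ) * Real.pi / q := by
      rw [hbR]; field_simp
    rw [h1]
    have h2 : ((Nat.gcd q 2 : ℕ) : ℝ) * Real.pi / q * ((Nat.lcm 2 q : ℕ) : ℝ) =
        (((Nat.gcd q 2 : ℕ) : ℝ) * ((Nat.lcm 2 q : ℕ) : ℝ)) * Real.pi / q := by ring
    rw [h2, hlR]; field_simp
  rw [e]
  exact add_mem (zsmul_mem (pi_mem P i j α hα) _) (zsmul_mem (alpha_mem P i j α hα) _)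

lemma shift (c D x : ℝ) (hD : 0 < D) (hx : ∀ m : ℤ, x ≠ c + m * D) :
    ∃ m : ℤ, c < x + m * D ∧ x + m * D < c + D := by
  refine ⟨-⌊(x - c) / D⌋, ?_, ?_⟩
  · have h1 := Int.floor_le ((x - c) / D)
    rw [le_div_iff₀ hD] at h1
    have h2 := hx ⌊(x - c) / D⌋
    push_cast
    rcases lt_or_eq_of_le h1 with h | h
    · linarith
    · exact absurd (by linarith) h2
  · have h1 := Int.lt_floor_add_one ((x - c) / D)
    rw [div_lt_iff₀ hD] at h1
    push_cast
    linarith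

theorem rat : T_RAT := by
  intro ι P E U i j α p q φ₁ φ₂ hC hq hpq hα h0 hle hlen hR
  have hu : -P.u i = uv P j α := hC.2.2.2.1
  have hG := step_mem P i j α hu p q hq hpq hα
  have hL : (0 : ℝ) < ((Nat.lcm 2 q : ℕ) : ℝ) := by
    exact_mod_cast Nat.lcm_pos (by norm_num) hq
  set D : ℝ := 2 * Real.pi / (Nat.lcm 2 q : ℕ) with hD
  have hD0 : 0 < D := by rw [hD]; have := Real.pi_pos; positivity
  have hD2 : Real.pi / (Nat.lcm 2 q : ℕ) = D / 2 := by rw [hD]; ring
  rw [hD2] at hlen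
  have hm : ∀ (t : ℝ) (m : ℤ), Rel P i j t (t + m * D) := by
    intro t m
    have := (zsmul_mem hG m).1 t
    rwa [zsmul_eq_mul] at this
  -- it suffices to find the angle
  have key : ∀ t : ℝ, (∀ m : ℤ, t ≠ φ₁ + m * (D / 2)) → (∀ m : ℤ, t ≠ φ₂ + m * (D / 2)) →
      ∃ φ ∈ Ioo φ₁ φ₂, Rel P i j t φ := by
    intro t ht1 ht2
    have hd1 : ∀ m : ℤ, t ≠ φ₁ + m * D := by
      intro m hm'
      apply ht1 (2 * m)
      rw [hm']; push_cast; ring
    rcases hlen with h | ⟨h | h, h'⟩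
    · obtain ⟨m, h1, h2⟩ := shift φ₁ D t hD0 hd1
      exact ⟨t + m * D, ⟨h1, by linarith⟩, hm t m⟩
    · obtain ⟨m, h1, h2⟩ := shift φ₁ D t hD0 hd1
      rcases lt_trichotomy (t + m * D) (φ₁ + D / 2) with h3 | h3 | h3
      · exact ⟨t + m * D, ⟨h1, by linarith⟩, hm t m⟩
      · exfalso
        apply ht1 (1 - 2 * m)
        push_cast
        linarith
      · refine ⟨-t + ((1 - m : ℤ) : ℝ) * D, ⟨?_, ?_⟩, rel_trans (rel_j P i j t) (hm _ _)⟩
        · push_cast; rw [h] at h2 ⊢; linarith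
        · push_cast; rw [h] at h3 h'; linarith
    · have hd2 : ∀ m : ℤ, α - t ≠ 0 + m * D := by
        intro m hm'
        apply ht2 (-2 * m)
        rw [h]; push_cast; linarith
      obtain ⟨m, h1, h2⟩ := shift 0 D (α - t) hD0 hd2
      rcases lt_trichotomy (α - t + m * D) (D / 2) with h3 | h3 | h3
      · refine ⟨t + ((-m : ℤ) : ℝ) * D, ⟨?_, ?_⟩, hm t _⟩
        · push_cast; linarith
        · push_cast; linarith
      · exfalso
        apply ht2 (2 * m - 1)
        rw [h]; push_cast; linarith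
      · refine ⟨2 * α - t + ((m - 1 : ℤ) : ℝ) * D, ⟨?_, ?_⟩,
          rel_trans (rel_i P i j α hu t) (hm _ _)⟩
        · push_cast; linarith
        · push_cast; linarith
  unfold BrightU
  set a : ℝ := Complex.arg (P.u j) with ha
  have huj : ‖P.u j‖ = 1 := by
    have h := u_mul_conj' P j
    rw [Complex.mul_conj, Complex.normSq_eq_norm_sq] at h
    have h1 : ‖P.u j‖ ^ 2 = 1 := by exact_mod_cast h
    nlinarith [norm_nonneg (P.u j)]
  have hexp : ∀ θ : ℝ, Complex.exp ((θ : ℂ) * Complex.I) = uv P j (θ - a) := by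
    intro θ
    unfold uv
    have h1 : P.u j = Complex.exp ((a : ℂ) * Complex.I) := by
      have := Complex.norm_mul_exp_arg_mul_I (P.u j)
      rw [huj] at this
      rw [ha]
      push_cast at this
      rw [one_mul] at this
      exact this.symm
    rw [h1, ← Complex.exp_add]
    congr 1; push_cast; ring
  have hc1 : (Set.range fun m : ℤ => a + (φ₁ + m * (D / 2))).Countable := Set.countable_range _
  have hc2 : (Set.range fun m : ℤ => a + (φ₂ + m * (D / 2))).Countable := Set.countable_range _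
  filter_upwards [hc1.ae_notMem volume, hc2.ae_notMem volume] with θ h1 h2
  obtain ⟨φ, hφ, l, hl, hr⟩ := key (θ - a)
    (fun m hm' => h1 ⟨m, by simp only; rw [← hm']; ring⟩)
    (fun m hm' => h2 ⟨m, by simp only; rw [← hm']; ring⟩)
  refine ⟨l, hl, φ, ⟨lt_of_le_of_lt h0 hφ.1, lt_of_lt_of_le hφ.2 hle⟩, ?_, hR φ hφ⟩
  rw [hexp]
  exact hr

end Pool.Agent.H80.EN
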